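import Pool.Agent.W932.RO.Defs2
import Pool.Agent.W352.RO.POLY
import Pool.Agent.W911.AL.PolSz

/-!
# RO-S1: the second language is in the small class for formulas
-/

set_option autoImplicit false

namespace Pool.Agent.W461.RO.S1

open Pool.Agent.NPC H568R2 Pool.Agent.H622R2 Pool.Agent.W932.RO Pool.Agent.W352.RO.POLY

/-- one step of reading -/
def stp (s : List Bool × List (List Bool)) : List Bool × List (List Bool) :=
  ((unpair s.1).2, s.2 ++ [(unpair s.1).1])

/-- the numbers, in unary notation -/
def strs (k : ℕ) (x : List Bool) : List (List Bool) :=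
  (List.range k).map fun i => (unpair (rst (i + 4) x)).1

theorem stp_iter (x : List Bool) (k : ℕ) : stp^[k] (rst 4 x, []) = (rst (k + 4) x, strs k x) := by
  induction k with
  | zero => simp [strs]
  | succ k ih =>
    rw [Function.iterate_succ_apply', ih]
    unfold stp strs
    rw [List.range_succ, List.map_append, List.map_singleton]
    refine Prod.ext ?_ rfl
    show (unpair (rst (k + 4) x)).2 = rst (k + 1 + 4) x
    have : k + 1 + 4 = (k + 4) + 1 := by omega
    rw [this]
    exact (Function.iterate_succ_apply' (fun y => (unpair y).2) (k + 4) x).symm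

theorem length_rst (i : ℕ) (x : List Bool) : (rst i x).length ≤ x.length := by
  induction i with
  | zero => exact le_refl _
  | succ i ih =>
    unfold rst at ih ⊢
    rw [Function.iterate_succ_apply']
    have := Pool.Agent.H591R3.PHG.LangSig.length_unpair ((fun y => (unpair y).2)^[i] x)
    omega

theorem length_fst (i : ℕ) (x : List Bool) : (unpair (rst i x)).1.length ≤ x.length := by
  have h1 := Pool.Agent.H591R3.PHG.LangSig.length_unpair (rst i x)
  have h2 := length_rst i x
  omega

theorem poly_strs : Poly (fun x : List Bool => strs (num 3 x) x) := by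
  have hl : UPoly (fun x : List Bool => x.length) := UPoly.length Poly.id
  obtain ⟨q, hq⟩ := Pool.Agent.W911.AL.exists_bound (α := List Bool) (UPoly.add (UPoly.add (UPoly.mul (UPoly.const 4) hl)
    (UPoly.const 3)) (UPoly.mul hl (UPoly.add (UPoly.mul (UPoly.const 4) hl) (UPoly.const 2))))
  have h3 : Poly (fun x : List Bool => (unpair (rst 3 x)).1) :=
    (Poly.fst poly_unpair).comp (poly_rst 3)
  have h4 : Poly (fun x : List Bool => (rst 4 x, ([] : List (List Bool)))) :=
    Poly.pair (poly_rst 4) (NPC.Poly.const [])
  have hs : Poly (fun p : List Bool × (List Bool × List (List Bool)) => stp p.2) := by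
    have h5 : Poly (fun p : List Bool × (List Bool × List (List Bool)) => unpair p.2.1) :=
      poly_unpair.comp (Poly.fst (Poly.snd Poly.id))
    exact Poly.pair (Poly.snd h5) (Poly.append (Poly.snd (Poly.snd Poly.id))
      (Poly.cons (Poly.fst h5) (NPC.Poly.const [])))
  refine (Poly.snd (Poly.iterLen (F := fun _ s => stp s) h3 h4 hs q ?_)).congr ?_
  · intro x k hk
    rw [stp_iter]
    refine le_trans ?_ (hq x)
    have e1 : sz (rst (k + 4) x) ≤ 4 * (rst (k + 4) x).length + 1 := sz_listBool_le _
    have e2 := length_rst (k + 4) x
    have e3 : sz (strs k x) ≤ (strs k x).length * (4 * x.length + 1 + 1) + 1 := by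
      refine sz_le_length_mul _ _ fun a ha => ?_
      unfold strs at ha
      obtain ⟨i, _, rfl⟩ := List.mem_map.1 ha
      have e4 : sz (unpair (rst (i + 4) x)).1 ≤ 4 * (unpair (rst (i + 4) x)).1.length + 1 := sz_listBool_le _
      have e5 := length_fst (i + 4) x
      omega
    have e6 : (strs k x).length = k := by simp [strs]
    have e7 : k ≤ x.length := hk.trans (length_fst 3 x)
    have e8 : k * (4 * x.length + 1 + 1) ≤ x.length * (4 * x.length + 2) := Nat.mul_le_mul e7 (by omega)
    rw [e6] at e3
    have e9 : sz (rst (k + 4) x, strs k x) = sz (rst (k + 4) x) + sz (strs k x) + 1 := sz_pair _ _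
    rw [e9]
    omega
  · intro x
    show (stp^[(unpair (rst 3 x)).1.length] (rst 4 x, [])).2 = _
    rw [stp_iter]
    rfl

theorem code_map_length (l : List (List Bool)) :
    code (l.map List.length) = l.flatMap (fun s => s.map (fun _ => true) ++ [false]) := by
  induction l with
  | nil => rfl
  | cons a l ih =>
    rw [List.map_cons, code, ih, List.flatMap_cons, List.append_assoc, List.map_const']
    rfl

theorem szs_eq (x : List Bool) : szs x =
    if (strs (num 3 x) x).flatten.length ≤ lg x then (strs (num 3 x) x).map List.length else [] := by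
  have h1 : (List.range (num 3 x)).map (fun i => num (i + 4) x) = (strs (num 3 x) x).map List.length := by
    unfold strs
    rw [List.map_map]
    rfl
  unfold szs
  rw [h1, List.length_flatten]

theorem poly_code : Poly (fun x => code (szs x)) := by
  have h := poly_strs
  refine (Poly.ite (p := fun x => (strs (num 3 x) x).flatten.length ≤ lg x)
    (Poly.decide_le (Poly.length (Poly.flatten h)) poly_lg)
    (Poly.flatMap (F := fun _ (s : List Bool) => s.map (fun _ => true) ++ [false]) h
      (Poly.append (NPC.Poly.map (F := fun _ _ => true) (Poly.snd Poly.id) (NPC.Poly.const true)) (NPC.Poly.const [false])))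
    (NPC.Poly.const [])).congr fun x => ?_
  rw [szs_eq]
  split_ifs with h1
  · exact (code_map_length _).symm
  · rfl

theorem sum_szs (x : List Bool) : (szs x).sum ≤ lg x := by
  unfold szs
  split_ifs with h
  · exact h
  · simp

theorem main : StmPolyS := by
  intro A
  exact ⟨bl 0, szs, wl, polyNat_of (upoly_bl 0), polyTime_of_poly_list poly_code, polyNat_of upoly_wl,
    fun x => min_le_right _ _, sum_szs, fun x => min_le_right _ _, fun x => Iff.rfl⟩

end Pool.Agent.W461.RO.S1
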